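import Pool.Agent.Q141.FR.Main

/-!
# The gap question is a finite problem, with a polynomial rate

The balance constant `balance` and the class `InD` (the class `𝒟`) are those of the problem.  There
are absolute constants `c > 0` and `n₀` with the following properties.

* For every finite poset `P` outside `𝒟` and every `n ≥ n₀` there is a poset `Q` outside `𝒟` with
  exactly `n` elements, of no larger width, such that `δ(Q) ≤ δ(P) + n ^ (-c)`.  So the least balance
  constant of the posets with `n` elements outside `𝒟` differs from the infimum over all of them by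
  at most `n ^ (-c)`, and this holds in every class of posets of width at most `w`.
* For every real number `γ`, in particular for `γ = 1 / 3` (Q1): all finite posets outside `𝒟` have
  balance constant at least `γ + ε` for some `ε > 0` if and only if there is an `n ≥ n₀` such that
  all posets with `n` elements outside `𝒟` have balance constant larger than `γ + n ^ (-c)`.
  The same holds for posets of width at most `w`, with the same constants.

Proof.  If `δ(P) < 2 / 5`, then by the starting result `ManyIncomparable` all elements of `P` are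
incomparable to at most `K` others.  Number the elements by a linear extension; then elements whose
numbers differ by at least `b = 2 K + 2` are comparable.  Linear extensions are paths of initial
segments, and an initial segment with `s` elements contains the numbers below `s - b` and none above
`s + b`.  Within `2 b` steps every such segment can be reached from every other one, hence (contraction
of the ratios) the numbers of completions on both sides of a window of length `L` are determined by
the window up to a factor `1 + exp (- c' L)`, and so are the probabilities in the middle of it.  Among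
more than `2 ^ (L b)` windows two are equal, and the part between them is cut out; this creates no
new windows of length `L`.  What remains has at most `exp (c'' L)` elements.  Outside `𝒟` means that
some incomparable pair is not contained in a component isomorphic to the poset with three elements;
this is seen in a window of length `6 b`, which is kept.
-/

set_option autoImplicit false

namespace Pool.Agent.Results.MP_33fb9b_co.FiniteReduction

open Pool.Agent.H13R3.WB

/-- Every antichain of `P` has at most `w` elements. -/
def WidthLE (P : Type) [PartialOrder P] (w : ℕ) : Prop :=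
  ∀ s : Finset P, IsAntichain (· ≤ ·) (s : Set P) → s.card ≤ w

theorem result : ∃ c : ℝ, 0 < c ∧ ∃ n₀ : ℕ,
    -- approximation by posets with exactly `n` elements
    (∀ n : ℕ, n₀ ≤ n → ∀ (P : Type) [Fintype P] [PartialOrder P] [Nonempty P], ¬ InD P →
      ∃ (Q : Type) (_ : Fintype Q) (_ : PartialOrder Q), Fintype.card Q = n ∧ ¬ InD Q ∧
        (∀ w : ℕ, WidthLE P w → WidthLE Q w) ∧ balance Q ≤ balance P + (n : ℝ) ^ (-c)) ∧
    -- the gap question
    (∀ γ : ℝ,
      (∃ ε : ℝ, 0 < ε ∧ ∀ (P : Type) [Fintype P] [PartialOrder P] [Nonempty P], ¬ InD P →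
        γ + ε ≤ balance P) ↔
      ∃ n : ℕ, n₀ ≤ n ∧ ∀ (P : Type) [Fintype P] [PartialOrder P], Fintype.card P = n →
        ¬ InD P → γ + (n : ℝ) ^ (-c) < balance P) ∧
    -- the gap question for posets of width at most `w`
    (∀ (w : ℕ) (γ : ℝ),
      (∃ ε : ℝ, 0 < ε ∧ ∀ (P : Type) [Fintype P] [PartialOrder P] [Nonempty P], ¬ InD P →
        WidthLE P w → γ + ε ≤ balance P) ↔
      ∃ n : ℕ, n₀ ≤ n ∧ ∀ (P : Type) [Fintype P] [PartialOrder P], Fintype.card P = n →
        ¬ InD P → WidthLE P w → γ + (n : ℝ) ^ (-c) < balance P) := by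
  obtain ⟨c, hc, n₀, h1, h⟩ := Pool.Agent.Q141.FR.main_D
  have key : ∀ n : ℕ, n₀ ≤ n → ∀ (P : Type) [Fintype P] [PartialOrder P] [Nonempty P], ¬ InD P →
      ∃ (Q : Type) (_ : Fintype Q) (_ : PartialOrder Q), Fintype.card Q = n ∧ ¬ InD Q ∧
        (∀ w : ℕ, WidthLE P w → WidthLE Q w) ∧ balance Q ≤ balance P + (n : ℝ) ^ (-c) := by
    intro n hn P _ _ _ hP
    obtain ⟨Q, i1, i2, k1, k2, k3, k4⟩ := h n hn P hP
    refine ⟨Q, i1, i2, k1, k2, fun w hw s hs => ?_, k4⟩
    obtain ⟨u, hu, hsu⟩ := k3 s hs
    exact hsu.trans (hw u hu)
  refine ⟨c, hc, n₀, key, fun γ => ?_, fun w γ => ?_⟩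
  · exact Pool.Agent.Q141.FR.gap_iff hc h1 (fun P _ => ¬ InD P) (fun n hn P _ _ _ hP => by
      obtain ⟨Q, i1, i2, k1, k2, _, k4⟩ := key n hn P hP
      exact ⟨Q, i1, i2, k1, k2, k4⟩) γ
  · have h2 := Pool.Agent.Q141.FR.gap_iff hc h1 (fun P _ => ¬ InD P ∧ WidthLE P w)
      (fun n hn P _ _ _ hP => by
        obtain ⟨Q, i1, i2, k1, k2, k3, k4⟩ := key n hn P hP.1
        exact ⟨Q, i1, i2, k1, ⟨k2, k3 w hP.2⟩, k4⟩) γ
    constructor
    · rintro ⟨ε, hε, hP⟩
      obtain ⟨n, hn, hP'⟩ := h2.1 ⟨ε, hε, fun P _ _ _ hp => hP P hp.1 hp.2⟩
      exact ⟨n, hn, fun P _ _ hcard h3 h4 => hP' P hcard ⟨h3, h4⟩⟩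
    · rintro ⟨n, hn, hP⟩
      obtain ⟨ε, hε, hP'⟩ := h2.2 ⟨n, hn, fun P _ _ hcard hp => hP P hcard hp.1 hp.2⟩
      exact ⟨ε, hε, fun P _ _ _ h3 h4 => hP' P ⟨h3, h4⟩⟩

end Pool.Agent.Results.MP_33fb9b_co.FiniteReduction
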