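import Pool.Agent.Q38.MJ.Gap
import Pool.Agent.Q38.MJ.Thin

/-!
# Good pairs and a gap above 1/3

Zaguia's approach to the `1/3`-`2/3` conjecture (for `N`-free posets and for posets whose cover graph
is a forest) uses pairs `x, y` of incomparable elements such that everything below `x` is below `y`
and the elements above `y` but not above `x` form a chain: if `P(x < y) ≤ 1/2` for such a pair, then
`P(x < z)` is in `[1/3, 2/3]` for `z = y` or an element `z` of the chain. This gives nothing better
than `1/3`, and it cannot, since such pairs are found in the posets of the class `𝒟`.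

We prove that there is an absolute `ε > 0` such that such a pair forces `δ(P) ≥ 1/3 + ε`, except in
one special position which resembles that in the poset with three elements and one relation: the
elements below `x` and `y` are the same, the elements above `x` are above `y` but not conversely,
`P(x < y)` is in `(1/3 - ε, 1/3 + ε)`, and `P(x < z)` is in `(2/3 - ε, 2/3 + 2 ε)` for the least
element `z` of the chain; if the chain has one element, then `{x, y, z}` is an autonomous copy of the
poset with three elements and one relation (all other elements have the same relation to `x`, `y` and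
`z`).

Consequently the gap holds for all posets with two elements which have the same elements below them
and such that the elements above one and not above the other form nonempty chains, and for all posets
with three pairwise incomparable elements with the same elements below them such that the elements
above one and not above another always form a chain (e.g. when the elements above each of the three
form a chain), and for the duals of these posets.

Proof. By the starting result `ManyIncomparable` all elements of a poset with `δ(P) < 5/12` are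
incomparable to at most `K` others. Then incomparable elements have distance at most `2 K + 1` in all
linear extensions, and by reordering a window of bounded size every order of three or four elements
linked by incomparabilities, consistent with `P`, has probability at least `c(K) > 0` (`Win`, `Maj`).
The exchanges in the proof of Zaguia's lemma are injections between sets of linear extensions
(`Swap`); if the probabilities avoid `[1/3 + ε, 2/3 - ε]`, these injections are almost surjective;
but each element in a wrong position gives a set of probability `c(K)` outside the image (`Gap`).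
-/

set_option autoImplicit false

open Pool.Agent.H13R3.WB
open scoped Classical

namespace Pool.Agent.Results.MP_33fb9b_co.GoodPairsGap

open Pool.Agent.Q38.MJ

/-- `x` and `y` are incomparable, have the same elements below them, and the elements above one of
them and not above the other form a chain (possibly empty). -/
structure Siblings (P : Type) [PartialOrder P] (x y : P) : Prop where
  nxy : ¬ x ≤ y
  nyx : ¬ y ≤ x
  dn : ∀ u : P, u < x ↔ u < y
  chx : ∀ z w : P, x < z → ¬ y < z → x < w → ¬ y < w → z ≤ w ∨ w ≤ z
  chy : ∀ z w : P, y < z → ¬ x < z → y < w → ¬ x < w → z ≤ w ∨ w ≤ z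

/-- Two siblings such that none of the two sets of elements above one of them and not above the other
is empty, or both are empty. -/
def HasTwins (P : Type) [PartialOrder P] : Prop :=
  ∃ x y : P, Siblings P x y ∧ ((∃ z, x < z ∧ ¬ y < z) ↔ (∃ z, y < z ∧ ¬ x < z))

/-- Three pairwise siblings. -/
def HasTriplets (P : Type) [PartialOrder P] : Prop :=
  ∃ x y z : P, Siblings P x y ∧ Siblings P x z ∧ Siblings P y z

lemma Siblings.symm {P : Type} [PartialOrder P] {x y : P} (h : Siblings P x y) :
    Siblings P y x :=
  ⟨h.nyx, h.nxy, fun u => (h.dn u).symm, h.chy, h.chx⟩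

lemma Siblings.good {P : Type} [PartialOrder P] {x y : P} (h : Siblings P x y) : GoodP P x y :=
  ⟨h.nxy, h.nyx, fun u => (h.dn u).1, h.chy⟩

lemma prob_dual (P : Type) [Fintype P] [PartialOrder P] (x y : P) :
    prob Pᵒᵈ (OrderDual.toDual x) (OrderDual.toDual y) = prob P y x := by
  unfold prob
  have hc : Fintype.card Pᵒᵈ = Fintype.card P := rfl
  congr 2
  · apply Nat.card_congr
    refine Equiv.subtypeEquiv (Equiv.equivCongr OrderDual.ofDual
      (Fin.revPerm (n := Fintype.card P))) ?_
    intro f
    constructor
    · rintro ⟨h1, h2⟩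
      refine ⟨?_, ?_⟩
      · intro u w huw
        have h3 := h1 (OrderDual.toDual_le_toDual.2 huw)
        exact Fin.rev_le_rev.2 h3
      · exact Fin.rev_lt_rev.2 h2
    · rintro ⟨h1, h2⟩
      refine ⟨?_, ?_⟩
      · intro u w huw
        have h3 := h1 (OrderDual.ofDual_le_ofDual.2 huw)
        exact Fin.rev_le_rev.1 h3
      · exact Fin.rev_lt_rev.1 h2
  · apply Nat.card_congr
    refine Equiv.subtypeEquiv (Equiv.equivCongr OrderDual.ofDual
      (Fin.revPerm (n := Fintype.card P))) ?_
    intro f
    constructor
    · intro h1 u w huw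
      have h3 := h1 (OrderDual.toDual_le_toDual.2 huw)
      exact Fin.rev_le_rev.2 h3
    · intro h1 u w huw
      have h3 := h1 (OrderDual.ofDual_le_ofDual.2 huw)
      exact Fin.rev_le_rev.1 h3

lemma balance_dual (P : Type) [Fintype P] [PartialOrder P] : balance Pᵒᵈ = balance P := by
  unfold balance
  apply Equiv.iSup_congr (Equiv.prodCongr OrderDual.ofDual OrderDual.ofDual)
  rintro ⟨x, y⟩
  have h1 := prob_dual P (OrderDual.ofDual x) (OrderDual.ofDual y)
  have h2 := prob_dual P (OrderDual.ofDual y) (OrderDual.ofDual x)
  change min (prob P (OrderDual.ofDual x) (OrderDual.ofDual y))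
    (prob P (OrderDual.ofDual y) (OrderDual.ofDual x)) = min (prob Pᵒᵈ x y) (prob Pᵒᵈ y x)
  rw [← h1, ← h2, min_comm]
  rfl

theorem result : ∃ ε : ℝ, 0 < ε ∧
    (∀ (P : Type) [Fintype P] [PartialOrder P], HasTwins P ∨ HasTwins Pᵒᵈ →
      1 / 3 + ε ≤ balance P) ∧
    (∀ (P : Type) [Fintype P] [PartialOrder P], HasTriplets P ∨ HasTriplets Pᵒᵈ →
      1 / 3 + ε ≤ balance P) ∧
    (∀ (P : Type) [Fintype P] [PartialOrder P], balance P < 1 / 3 + ε →
      ∀ x y : P, ¬ x ≤ y → ¬ y ≤ x → (∀ u : P, u < x → u < y) →
        (∀ z w : P, y < z → ¬ x < z → y < w → ¬ x < w → z ≤ w ∨ w ≤ z) → prob P x y ≤ 1 / 2 →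
      1 / 3 - ε < prob P x y ∧
      (∀ u : P, u < x ↔ u < y) ∧ (∀ w : P, x < w → y < w) ∧
      ∃ z : P, y < z ∧ ¬ x < z ∧ (∀ w : P, y < w → ¬ x < w → z ≤ w) ∧
        2 / 3 - ε < prob P x z ∧ prob P x z < 2 / 3 + 2 * ε ∧
        ((∀ w : P, y < w → ¬ x < w → w = z) →
          (∀ u : P, u < z ↔ (u = y ∨ u < y)) ∧ (∀ w : P, z < w ↔ x < w))) := by
  obtain ⟨K, hK⟩ := thin
  have hM : (0 : ℝ) < 1 / (M K : ℝ) := by
    have : (0 : ℝ) < M K := by exact_mod_cast M_pos K
    positivity
  obtain ⟨e, he⟩ : ∃ e : ℝ, e = min (1 / (M K : ℝ) / 4) (1 / 24) := ⟨_, rfl⟩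
  have he0 : 0 < e := by rw [he]; exact lt_min (by linarith) (by norm_num)
  have he1 : 4 * e ≤ 1 / (M K : ℝ) := by
    have := min_le_left (1 / (M K : ℝ) / 4) (1 / 24)
    rw [← he] at this
    linarith
  have he2 : e ≤ 1 / 24 := by rw [he]; exact min_le_right _ _
  have main : ∀ (P : Type) [Fintype P] [PartialOrder P], balance P < 1 / 3 + e →
      ∀ x y : P, GoodP P x y → prob P x y ≤ 1 / 2 → Conc P x y e := by
    intro P _ _ hb x y h hp
    exact good_pair (hK P (by linarith)) he0 he1 he2 hb h hp
  have half : ∀ (P : Type) [Fintype P] [PartialOrder P], balance P < 1 / 3 + e →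
      ∀ x y : P, Siblings P x y → Conc P x y e ∨ Conc P y x e := by
    intro P _ _ hb x y h
    have h1 := prob_add x y h.good.ne
    rcases le_total (prob P x y) (1 / 2) with h2 | h2
    · exact Or.inl (main P hb x y h.good h2)
    · exact Or.inr (main P hb y x h.symm.good (by linarith))
  have twins : ∀ (P : Type) [Fintype P] [PartialOrder P], HasTwins P → 1 / 3 + e ≤ balance P := by
    rintro P _ _ ⟨x, y, h, hiff⟩
    by_contra hb
    rw [not_le] at hb
    rcases half P hb x y h with h1 | h1
    · obtain ⟨z, hz1, hz2, -⟩ := h1.ex
      obtain ⟨w, hw1, hw2⟩ := hiff.2 ⟨z, hz1, hz2⟩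
      exact hw2 (h1.up w hw1)
    · obtain ⟨z, hz1, hz2, -⟩ := h1.ex
      obtain ⟨w, hw1, hw2⟩ := hiff.1 ⟨z, hz1, hz2⟩
      exact hw2 (h1.up w hw1)
  have triplets : ∀ (P : Type) [Fintype P] [PartialOrder P], HasTriplets P →
      1 / 3 + e ≤ balance P := by
    rintro P _ _ ⟨x, y, z, h1, h2, h3⟩
    by_contra hb
    rw [not_le] at hb
    have hKP := hK P (by linarith)
    have cyc : ∀ a b c : P, Conc P a b e → Conc P b c e → Conc P c a e → False := by
      intro a b c ha hb hc
      obtain ⟨v, hv1, hv2, -⟩ := hc.ex
      exact hv2 (hb.up v (ha.up v hv1))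
    rcases half P hb x y h1 with a1 | a1 <;> rcases half P hb x z h2 with a2 | a2 <;>
      rcases half P hb y z h3 with a3 | a3
    · exact siblings hKP he0 he1 a1 a2 a3
    · exact siblings hKP he0 he1 a2 a1 a3
    · exact cyc _ _ _ a1 a3 a2
    · exact siblings hKP he0 he1 a2 a3 a1
    · exact siblings hKP he0 he1 a1 a3 a2
    · exact cyc _ _ _ a1 a2 a3
    · exact siblings hKP he0 he1 a3 a1 a2
    · exact siblings hKP he0 he1 a3 a2 a1
  refine ⟨e, he0, ?_, ?_, ?_⟩
  · rintro P _ _ (h | h)
    · exact twins P h
    · rw [← balance_dual]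
      exact twins Pᵒᵈ h
  · rintro P _ _ (h | h)
    · exact triplets P h
    · rw [← balance_dual]
      exact triplets Pᵒᵈ h
  · intro P _ _ hb x y h1 h2 h3 h4 hp
    have h := main P hb x y ⟨h1, h2, h3, h4⟩ hp
    exact ⟨by linarith [h.lo], h.dn, h.up, h.ex⟩

end Pool.Agent.Results.MP_33fb9b_co.GoodPairsGap
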