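import Pool.Agent.Q125.LS.Sym

/-!
# A gap above `1/3` for finite posets with a local symmetry

Distances are taken in the incomparability graph of the poset: `Ball x R` is the set of the elements
joined to `x` by at most `R` steps between incomparable elements.  Two pairs `(x, y)` in `P` and
`(x', y')` in `P'` look alike up to distance `R` (`Alike R x y x' y'`) if an isomorphism of induced
subposets, which contain the balls of radius `R` about `x` and about `x'`, takes `x` to `x'` and `y` to
`y'`.

1. Locality: in posets whose balance constants stay away from `1/2` the probabilities of pairs which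
   look alike up to distance `R` differ by an exponentially small amount.
2. There are `ε > 0` and `R` such that `δ(P) ≥ 1/3 + ε` for every finite poset `P` with a local symmetry:
   an automorphism of a subset `A` that moves an element `x` whose ball of radius `R` lies in `A`
   (for `A = P`: a nontrivial automorphism), an anti-automorphism of a subset with two fixed points, or a
   cycle of pairs that look alike.
3. If `δ(P) < 1/3 + ε` then the majority relation `1/2 < P(x < y)` is a linear extension of `P`, and it is
   determined locally.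

Proof.  A poset with `δ ≤ c < 1/2` is thin (starting file `ManyIncomparable`).  In a thin connected
poset, a window of a linear extension is contained in a ball, and the orders of a poset and of a
subposet agree on the windows in which nothing is missing; the comparison of equal windows (as in
`FiniteReduction`) gives the locality.  Majority cycles of length three are excluded in thin posets by
reordering windows (as in `GoodPairsGap`), and so the majority relation is a linear extension if
`δ(P) < 1/3 + ε`.  A local automorphism preserves the majority relation of the elements of an orbit,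
which is a cycle.
-/

set_option autoImplicit false

namespace Pool.Agent.Results.MP_33fb9b_co.LocalSymmetry

open Pool.Agent.H13R3.WB Pool.Agent.Q125.LS

theorem result :
    (∀ c : ℝ, c < 1 / 2 → ∃ D g : ℝ, 0 < D ∧ 0 < g ∧ ∀ (R : ℕ) (P P' : Type) [Fintype P]
      [PartialOrder P] [Fintype P'] [PartialOrder P'], balance P ≤ c → balance P' ≤ c →
      ∀ (x y : P) (x' y' : P'), Alike R x y x' y' →
        |prob P x y - prob P' x' y'| ≤ D * Real.exp (-(g * R))) ∧
    ∃ (ε : ℝ) (R : ℕ), 0 < ε ∧
      (∀ (P : Type) [Fintype P] [PartialOrder P] (A : Set P) (s : A ≃o A) (x : A),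
        Ball (x : P) R ⊆ A → s x ≠ x → 1 / 3 + ε ≤ balance P) ∧
      (∀ (P : Type) [Fintype P] [PartialOrder P] (A : Set P) (s : A ≃o Aᵒᵈ) (x y : A),
        Ball (x : P) R ⊆ A → s x = OrderDual.toDual x → s y = OrderDual.toDual y → x ≠ y →
        1 / 3 + ε ≤ balance P) ∧
      (∀ (P : Type) [Fintype P] [PartialOrder P] (n : ℕ) (x : ℕ → P), 0 < n → x n = x 0 →
        x 1 ≠ x 0 → (∀ i, i + 2 ≤ n → Alike R (x i) (x (i + 1)) (x (i + 1)) (x (i + 2))) →
        1 / 3 + ε ≤ balance P) ∧
      (∀ (P : Type) [Fintype P] [PartialOrder P], balance P < 1 / 3 + ε →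
        ∃ L : P ≃ Fin (Fintype.card P), Monotone L ∧ ∀ x y, L x < L y ↔ 1 / 2 < prob P x y) ∧
      (∀ (P P' : Type) [Fintype P] [PartialOrder P] [Fintype P'] [PartialOrder P'],
        balance P < 1 / 3 + ε → balance P' < 1 / 3 + ε → ∀ (x y : P) (x' y' : P'),
        Alike R x y x' y' → (1 / 2 < prob P x y ↔ 1 / 2 < prob P' x' y')) := by
  classical
  obtain ⟨e, R, he, he1, htr, hre⟩ := core
  have hal : ∀ (P P' : Type) [Fintype P] [PartialOrder P] [Fintype P'] [PartialOrder P'],
      balance P < 1 / 3 + e → balance P' < 1 / 3 + e → ∀ (x y : P) (x' y' : P'),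
      Alike R x y x' y' → (1 / 2 < prob P x y ↔ 1 / 2 < prob P' x' y') := by
    intro P P' _ _ _ _ hb hb' x y x' y' h
    obtain ⟨A, A', s, hx, hy, hA, hA', rfl, rfl⟩ := h
    have c1 := hre P A hb (incl A) ⟨x, hx⟩ ⟨y, hy⟩ (fun z hz => ⟨⟨z, hA hz⟩, rfl⟩)
    have c2 := hre P' A' hb' (incl A') (s ⟨x, hx⟩) (s ⟨y, hy⟩) (fun z hz => ⟨⟨z, hA' hz⟩, rfl⟩)
    rw [incl_apply, incl_apply] at c1 c2
    rw [c1, c2, Pool.Agent.H931R3.Bal.prob_iso s]
  refine ⟨locality, e, R + 1, he, ?_, ?_, ?_, ?_, ?_⟩
  · intro P _ _ A s x hA hne
    by_contra hb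
    rw [not_le] at hb
    obtain ⟨N, hN, hper⟩ := exists_period s
    refine cyc_gap (x := fun i => ((s^[i]) x : P)) he1 hb (htr P hb)
      (fun x y x' y' h => hal P P hb hb x y x' y' h) hN ?_ ?_ (fun i _ => auto_alike s x hA i)
    · change ((s^[N]) x : P) = x
      rw [hper]
    · intro h
      exact hne (Subtype.ext h)
  · intro P _ _ A s x y hA hx hy hxy
    by_contra hb
    rw [not_le] at hb
    exact anti_gap he1 hb (fun Q _ _ φ x y h => hre P Q hb φ x y h) s hA hx hy hxy
  · intro P _ _ n x hn hx hne h
    by_contra hb
    rw [not_le] at hb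
    exact cyc_gap he1 hb (htr P hb) (fun x y x' y' h => hal P P hb hb x y x' y' h) hn hx hne
      (fun i hi => (h i hi).mono (Nat.le_succ R))
  · intro P _ _ hb
    exact exists_maj he1 hb (htr P hb)
  · intro P P' _ _ _ _ hb hb' x y x' y' h
    exact hal P P' hb hb' x y x' y' (h.mono (Nat.le_succ R))

end Pool.Agent.Results.MP_33fb9b_co.LocalSymmetry
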