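import Pool.Agent.Q109.SO.Main
import Pool.Agent.Q109.SO.Example2

set_option autoImplicit false

/-!
# The exact gap for semiorders

`balance` is the balance constant `δ`, `InD` is the class `𝒟` of the problem (direct sums of copies
of the one-element poset and of the three-element poset with one relation).  `Autonomous M` means
that every element outside `M` has the same relation to all elements of `M`; `Built base` is the
closure of `base` and the one-element poset under disjoint sums and direct sums.

Every finite semiorder outside `𝒟` satisfies `δ ≥ 14 / 39 = 0.3589...`, and this is attained.  As
`β < 14 / 39`, both bounds asked for in the problem hold for semiorders.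

Method.  Number the elements of a semiorder such that the sets of predecessors grow and the sets of
successors shrink; let `r x` be the last element not above `x` and `l x` the first element not
below `x`.  In a poset that is not a direct sum, `r x + l x - 2 x` goes from positive to negative
values, so at the last `x` where it is positive, `x` and `x + 1` are separated by one element only
and `x + 1`, `x + 2` by at most two.  This leaves thirteen configurations of at most six elements.
For each of them the numbers of linear extensions with a given order of these elements satisfy
linear inequalities (exchange two elements `x`, `y`: always possible downwards, and possible upwards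
if no separating element is in between), which imply that one pair is balanced with `14 / 39`
(linear programming certificates, verified by the kernel).
-/

namespace Pool.Agent.Results.MP_33fb9b_co.SemiorderGap

open Pool.Agent.H13R3.WB Pool.Agent.H931R3.Bal Pool.Agent.Q109.SO

/-- Nonempty semiorders. -/
def SemiBase (P : Type) [PartialOrder P] : Prop := Nonempty P ∧ IsSemiorder P

theorem result :
    -- unit interval orders are semiorders in the sense used here
    (∀ (P : Type) [PartialOrder P] (f : P → ℝ), (∀ x y, x < y ↔ f x + 1 < f y) →
      IsSemiorder P) ∧
    -- the gap
    (∀ (P : Type) [Fintype P] [PartialOrder P] [Nonempty P], IsSemiorder P →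
      InD P ∨ 14 / 39 ≤ balance P) ∧
    -- the constant is optimal
    (∃ (P : Type) (_ : Fintype P) (_ : PartialOrder P), Fintype.card P = 7 ∧ IsSemiorder P ∧
      ¬ InD P ∧ balance P = 14 / 39) ∧
    -- it is larger than `β`
    (5864893 + 27 * √57) / 16812976 < (14 : ℝ) / 39 ∧
    -- posets with an autonomous subset built from semiorders by disjoint and direct sums
    (∀ (P : Type) [Fintype P] [PartialOrder P] (M : Set P), Autonomous M → Built SemiBase M →
      InD M ∨ 14 / 39 ≤ balance P) := by
  refine ⟨?_, ?_, ?_, ?_, ?_⟩
  · intro P _ f hf
    constructor
    · intro a b c d h1 h2
      rw [hf] at h1 h2 ⊢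
      rw [hf]
      by_contra hcon
      push Not at hcon
      linarith [hcon.1, hcon.2]
    · intro a b c d h1 h2
      rw [hf] at h1 h2 ⊢
      rw [hf]
      by_contra hcon
      push Not at hcon
      linarith [hcon.1, hcon.2]
  · exact semi_gap
  · refine ⟨S7, inferInstance, inferInstance, S7_card, S7_semi, S7_not_inD,
      le_antisymm balance_S7_le ?_⟩
    have : Nonempty S7 := ⟨el 0⟩
    exact (semi_gap S7 S7_semi).resolve_left S7_not_inD
  · have h : √57 < 8 := by
      rw [Real.sqrt_lt' (by norm_num)]
      norm_num
    rw [div_lt_div_iff₀ (by norm_num) (by norm_num)]
    linarith
  · intro P _ _ M hM hB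
    have : Fintype M := Fintype.ofFinite M
    obtain ⟨h1, h2⟩ := Built.gap (base := SemiBase) (c := 14 / 39) (by norm_num)
      (fun Q _ _ hQ => ⟨hQ.1, by
        have := hQ.1
        exact semi_gap Q hQ.2⟩) hB
    rcases h2 with h2 | h2
    · exact Or.inl h2
    · exact Or.inr (h2.trans (balance_autonomous hM))

end Pool.Agent.Results.MP_33fb9b_co.SemiorderGap
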